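import Pool.Agent.Helper89.FV.Cond
import Pool.Agent.Helper96.Fc.Root

/-!
# A small set of coordinates that decides the names `G_y`
-/

set_option linter.unusedSectionVars false

open Set Cardinal

namespace Pool.Agent.Helper89.FV

theorem cls_ct : Pool.Agent.Helper96.Fc.Cls (Order.succ ℵ₀) (Order.succ ((2 : Cardinal.{0}) ^ ℵ₀)) where
  rτ := isRegular_succ le_rfl
  rθ := isRegular_succ (cantor ℵ₀).le
  lt := Order.succ_lt_succ (cantor ℵ₀)
  pow := by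
    intro a ha b hb
    rw [Order.lt_succ_iff] at ha hb ⊢
    have h2 : (2 : Cardinal.{0}) ^ ℵ₀ ≠ 0 := (aleph0_pos.trans (cantor ℵ₀)).ne'
    calc a ^ b ≤ ((2 : Cardinal.{0}) ^ ℵ₀) ^ b := power_le_power_right ha
      _ ≤ ((2 : Cardinal.{0}) ^ ℵ₀) ^ ℵ₀ := power_le_power_left h2 hb
      _ = (2 : Cardinal.{0}) ^ ℵ₀ := by rw [← power_mul, aleph0_mul_aleph0]

namespace Cond

variable {I : Type}

open Classical in
/-- the condition that is `e` on `D` and `c` outside of `D` -/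
noncomputable def glue (D : Set I) (e c : Cond I) (h : e.b ⊆ c.b) : Cond I where
  b := e.b
  p i n := if i ∈ D then e.p i n else c.p i n
  inf := e.inf
  ne i n := by
    split_ifs
    · exact e.ne i n
    · exact c.ne i n
  sub i n := by
    split_ifs
    · exact e.sub i n
    · exact c.sub i n
  cnt := by
    refine (e.supp_countable.union c.supp_countable).mono ?_
    rintro i ⟨n, hn⟩
    by_cases hi : i ∈ D
    · rw [if_pos hi] at hn
      exact Or.inl ⟨n, hn⟩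
    · rw [if_neg hi] at hn
      exact Or.inr ⟨n, hn⟩
  lim i m := by
    by_cases hi : i ∈ D
    · obtain ⟨N, hN⟩ := e.lim i m
      refine ⟨N, fun n hn hle => ?_⟩
      rw [if_pos hi]
      exact hN n hn hle
    · obtain ⟨N, hN⟩ := c.lim i m
      refine ⟨N, fun n hn hle => ?_⟩
      rw [if_neg hi]
      exact hN n (h hn) hle

theorem glue_mem {D : Set I} {e c : Cond I} {h : e.b ⊆ c.b} {i : I} (hi : i ∈ D) (n : ℕ) :
    (glue D e c h).p i n = e.p i n := if_pos hi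

theorem glue_not_mem {D : Set I} {e c : Cond I} {h : e.b ⊆ c.b} {i : I} (hi : i ∉ D) (n : ℕ) :
    (glue D e c h).p i n = c.p i n := if_neg hi

theorem mk_finset_nat : #(Finset ℕ) = ℵ₀ := by
  rw [mk_finset_of_infinite, mk_nat]

/-- there are at most continuum many conditions with support in a countable set -/
theorem mk_supported {R : Set I} (hR : #R ≤ ℵ₀) : #{c : Cond I // c.supp ⊆ R} ≤ 2 ^ ℵ₀ := by
  let f : {c : Cond I // c.supp ⊆ R} → Set ℕ × (R → ℕ → Finset ℕ) :=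
    fun c => (c.1.b, fun r n => c.1.p r.1 n)
  have hf : Function.Injective f := by
    intro c d h
    have h1 : c.1.b = d.1.b := congrArg Prod.fst h
    have h2 := congrArg Prod.snd h
    refine Subtype.ext (ext' h1 fun i n => ?_)
    by_cases hi : i ∈ R
    · exact congrFun (congrFun h2 ⟨i, hi⟩) n
    · rw [p_of_not_supp (fun h => hi (c.2 h)), p_of_not_supp (fun h => hi (d.2 h))]
  refine (mk_le_of_injective hf).trans ?_
  have h2 : (2 : Cardinal.{0}) ^ ℵ₀ ≠ 0 := (aleph0_pos.trans (cantor ℵ₀)).ne'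
  have h3 : #(R → ℕ → Finset ℕ) ≤ 2 ^ ℵ₀ := by
    rw [← power_def, ← power_def, mk_finset_nat, mk_nat, aleph0_power_aleph0, ← two_power_aleph0]
    calc ((2 : Cardinal.{0}) ^ ℵ₀) ^ #R ≤ ((2 : Cardinal.{0}) ^ ℵ₀) ^ ℵ₀ :=
          power_le_power_left h2 hR
      _ = (2 : Cardinal.{0}) ^ ℵ₀ := by rw [← power_mul, aleph0_mul_aleph0]
  rw [mk_prod, lift_id, lift_id, mk_set, mk_nat]
  calc (2 : Cardinal.{0}) ^ ℵ₀ * #(R → ℕ → Finset ℕ) ≤ (2 : Cardinal.{0}) ^ ℵ₀ * 2 ^ ℵ₀ :=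
        mul_le_mul_right h3 _
    _ = (2 : Cardinal.{0}) ^ ℵ₀ := by rw [← power_add, aleph0_add_aleph0]

/-- **A small closed set of coordinates.** -/
theorem exists_small (p₀ : Cond I) (t : (ℕ → ℕ → ℕ) → ℕ → ℕ → Cond I → Prop)
    (t_mono : ∀ y n k q r, t y n k q → r ≤ q → t y n k r)
    (t_tot : ∀ y n, ∀ q ≤ p₀, ∃ r ≤ q, ∃ k, t y n k r) :
    ∃ D : Set I, #D ≤ 2 ^ ℵ₀ ∧ ∀ y n, ∀ c ≤ p₀, ∃ e ≤ c, Off D e c ∧ ∃ k, t y n k e := by
  classical
  have hex : ∀ (y : ℕ → ℕ → ℕ) (n : ℕ) (c : Cond I), ∃ e ≤ c, c ≤ p₀ → ∃ k, t y n k e := by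
    intro y n c
    by_cases hc : c ≤ p₀
    · obtain ⟨r, hr, h⟩ := t_tot y n c hc
      exact ⟨r, hr, fun _ => h⟩
    · exact ⟨c, le_rfl, fun h => absurd h hc⟩
  choose g hg1 hg2 using hex
  let F : Set I → Set I := fun R => p₀.supp ∪
    ⋃ x : {c : Cond I // c.supp ⊆ R} × (ℕ → ℕ → ℕ) × ℕ, (g x.2.1 x.2.2 x.1.1).supp
  have hF : ∀ R : Set I, #R < Order.succ ℵ₀ → #(F R) < Order.succ ((2 : Cardinal.{0}) ^ ℵ₀) := by
    intro R hR
    rw [Order.lt_succ_iff] at hR ⊢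
    have h2 : ℵ₀ ≤ (2 : Cardinal.{0}) ^ ℵ₀ := (cantor ℵ₀).le
    have hX : #({c : Cond I // c.supp ⊆ R} × (ℕ → ℕ → ℕ) × ℕ) ≤ 2 ^ ℵ₀ := by
      have h3 : #(ℕ → ℕ → ℕ) = (2 : Cardinal.{0}) ^ ℵ₀ := by
        rw [← power_def, ← power_def, mk_nat, ← power_mul, aleph0_mul_aleph0, aleph0_power_aleph0,
          ← two_power_aleph0]
      rw [mk_prod, mk_prod, lift_id, lift_id, lift_id, lift_id, h3, mk_nat]
      calc #{c : Cond I // c.supp ⊆ R} * ((2 : Cardinal.{0}) ^ ℵ₀ * ℵ₀)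
          ≤ (2 : Cardinal.{0}) ^ ℵ₀ * ((2 : Cardinal.{0}) ^ ℵ₀ * 2 ^ ℵ₀) :=
            mul_le_mul' (mk_supported hR) (mul_le_mul_right h2 _)
        _ = (2 : Cardinal.{0}) ^ ℵ₀ := by
          rw [← power_add, aleph0_add_aleph0, ← power_add, aleph0_add_aleph0]
    refine (mk_union_le _ _).trans ?_
    have h4 : #(⋃ x : {c : Cond I // c.supp ⊆ R} × (ℕ → ℕ → ℕ) × ℕ, (g x.2.1 x.2.2 x.1.1).supp :
        Set I) ≤ 2 ^ ℵ₀ := by
      refine (mk_iUnion_le _).trans ?_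
      calc #({c : Cond I // c.supp ⊆ R} × (ℕ → ℕ → ℕ) × ℕ) *
          ⨆ x : {c : Cond I // c.supp ⊆ R} × (ℕ → ℕ → ℕ) × ℕ, #((g x.2.1 x.2.2 x.1.1).supp)
          ≤ (2 : Cardinal.{0}) ^ ℵ₀ * 2 ^ ℵ₀ := by
            refine mul_le_mul' hX (ciSup_le' fun x => ?_)
            exact (le_aleph0_iff_set_countable.2 (supp_countable _)).trans h2
        _ = (2 : Cardinal.{0}) ^ ℵ₀ := by rw [← power_add, aleph0_add_aleph0]
    calc #(p₀.supp) + _ ≤ (2 : Cardinal.{0}) ^ ℵ₀ + 2 ^ ℵ₀ :=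
          add_le_add ((le_aleph0_iff_set_countable.2 (supp_countable _)).trans h2) h4
      _ = (2 : Cardinal.{0}) ^ ℵ₀ := add_eq_self h2
  obtain ⟨D, hD1, hD2⟩ := cls_ct.close F hF
  have hp₀ : p₀.supp ⊆ D := by
    refine subset_union_left.trans (hD2 ∅ (empty_subset _) ?_)
    rw [Order.lt_succ_iff]
    simp
  refine ⟨D, Order.lt_succ_iff.1 hD1, ?_⟩
  intro y n c hc
  -- the restriction of `c` to `D`
  let c' : Cond I := glue D c (⊤ : Cond I) (subset_univ _)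
  have hc'1 : ∀ i n, c'.p i n = if i ∈ D then c.p i n else Finset.range (n + 1) := fun i n => rfl
  have hc'p : c' ≤ p₀ := by
    refine ⟨hc.1, fun i n => ?_⟩
    rw [hc'1]
    split_ifs with hi
    · exact hc.2 i n
    · rw [p_of_not_supp (fun h => hi (hp₀ h))]
  have hc's : c'.supp ⊆ D := by
    rintro i ⟨n, hn⟩
    by_contra hi
    rw [hc'1, if_neg hi] at hn
    exact hn rfl
  have h1 : (g y n c').supp ⊆ D := by
    refine Subset.trans ?_ (hD2 c'.supp hc's ?_)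
    · refine Subset.trans ?_ subset_union_right
      exact subset_iUnion (fun x : {c : Cond I // c.supp ⊆ c'.supp} × (ℕ → ℕ → ℕ) × ℕ =>
        (g x.2.1 x.2.2 x.1.1).supp) (⟨c', Subset.rfl⟩, y, n)
    · rw [Order.lt_succ_iff]
      exact le_aleph0_iff_set_countable.2 (supp_countable _)
  have hgb : (g y n c').b ⊆ c.b := (hg1 y n c').1
  refine ⟨glue D (g y n c') c hgb, ⟨hgb, fun i k => ?_⟩, fun i hi k => glue_not_mem hi k, ?_⟩
  · by_cases hi : i ∈ D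
    · rw [glue_mem hi]
      have := (hg1 y n c').2 i k
      rwa [hc'1, if_pos hi] at this
    · rw [glue_not_mem hi]
  · obtain ⟨k, hk⟩ := hg2 y n c' hc'p
    refine ⟨k, t_mono _ _ _ _ _ hk ⟨Subset.rfl, fun i m => ?_⟩⟩
    by_cases hi : i ∈ D
    · rw [glue_mem hi]
    · rw [glue_not_mem hi, p_of_not_supp (fun h => hi (h1 h))]
      exact c.sub i m

end Cond

end Pool.Agent.Helper89.FV
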