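import Pool.Agent.Helper89.FV.Decide
import Pool.Agent.Helper89.FV.Closed

/-!
# The core theorem
-/

set_option linter.unusedSectionVars false

open Set Cardinal

namespace Pool.Agent.Helper89.FV

/-- a colouring of a finite set with many large classes -/
theorem exists_colouring (A : Finset ℕ) : ∃ f : ℕ → ℕ, ∀ i < Nat.sqrt A.card,
    Nat.sqrt A.card ≤ (A.filter fun j => f j = i).card := by
  classical
  set r := Nat.sqrt A.card with hr
  let e : A ≃ Fin A.card := A.equivFin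
  refine ⟨fun j => if h : j ∈ A then (e ⟨j, h⟩).1 % r else 0, fun i hi => ?_⟩
  have hlt : ∀ k < r, i + r * k < A.card := by
    intro k hk
    calc i + r * k < r + r * k := by omega
      _ = r * (k + 1) := by ring
      _ ≤ r * r := Nat.mul_le_mul_left r hk
      _ ≤ A.card := Nat.sqrt_le A.card
  let g : ℕ → ℕ := fun k => if h : k < r then (e.symm ⟨i + r * k, hlt k h⟩).1 else 0
  have hg : ∀ k (h : k < r), g k = (e.symm ⟨i + r * k, hlt k h⟩).1 := fun k h => dif_pos h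
  have h1 : ((Finset.range r).image g).card = r := by
    rw [Finset.card_image_of_injOn, Finset.card_range]
    intro a ha b hb hab
    have ha' := Finset.mem_coe.1 ha
    have hb' := Finset.mem_coe.1 hb
    rw [Finset.mem_range] at ha' hb'
    rw [hg a ha', hg b hb'] at hab
    have h2 := e.symm.injective (Subtype.ext hab)
    have h3 : i + r * a = i + r * b := congrArg Fin.val h2
    have h4 : r * a = r * b := by omega
    exact Nat.eq_of_mul_eq_mul_left (by omega) h4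
  refine h1.symm.le.trans (Finset.card_le_card ?_)
  intro j hj
  obtain ⟨k, hk, rfl⟩ := Finset.mem_image.1 hj
  rw [Finset.mem_range] at hk
  rw [Finset.mem_filter, hg k hk]
  refine ⟨(e.symm _).2, ?_⟩
  simp only
  rw [dif_pos (e.symm ⟨i + r * k, hlt k hk⟩).2, Subtype.coe_eta, Equiv.apply_symm_apply]
  simp only [Nat.add_mul_mod_self_left]
  exact Nat.mod_eq_of_lt hi

namespace Cond

variable {I : Type}

/-- the states of the last fusion -/
structure CS (I : Type) where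
  c : Cond I
  e : Cond I
  r : ℕ
  n : ℕ
  m : ℕ
  P : Finset (I × ℕ)

/-- restrict the coordinate `α` to the colour `r` -/
theorem exists_restrict (c : Cond I) (α : I) (y : ℕ → ℕ → ℕ) (r m : ℕ)
    (h : ∀ k, ∃ N, ∀ n ∈ c.b, N ≤ n → k ≤ ((c.p α n).filter fun j => y n j = r).card) :
    ∃ d ≤ c, (∀ n ∈ d.b, m ≤ n) ∧ (∀ i n, n < m → d.p i n = c.p i n) ∧
      ∀ n ∈ d.b, ∀ j ∈ d.p α n, y n j = r := by
  classical
  obtain ⟨N, hN⟩ := h 1
  have key : ∀ n ∈ c.b, N ≤ n → ((c.p α n).filter fun j => y n j = r).Nonempty := by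
    intro n hn hle
    exact Finset.card_pos.1 (hN n hn hle)
  let p' : I → ℕ → Finset ℕ := fun i n =>
    if i = α ∧ n ∈ c.b ∧ N ≤ n ∧ m ≤ n then (c.p i n).filter fun j => y n j = r else c.p i n
  have hp1 : ∀ n, n ∈ c.b → N ≤ n → m ≤ n → p' α n = (c.p α n).filter fun j => y n j = r :=
    fun n h1 h2 h3 => if_pos ⟨rfl, h1, h2, h3⟩
  have hp2 : ∀ i n, ¬ (i = α ∧ n ∈ c.b ∧ N ≤ n ∧ m ≤ n) → p' i n = c.p i n :=
    fun i n h => if_neg h
  have hsub : ∀ i n, p' i n ⊆ c.p i n := by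
    intro i n
    by_cases h1 : i = α ∧ n ∈ c.b ∧ N ≤ n ∧ m ≤ n
    · obtain ⟨rfl, h2, h3, h4⟩ := h1
      rw [hp1 n h2 h3 h4]
      exact Finset.filter_subset _ _
    · rw [hp2 i n h1]
  let d : Cond I :=
    { b := c.b ∩ Ici (max N m)
      p := p'
      inf := (c.cut (max N m)).inf
      ne := by
        intro i n
        by_cases h1 : i = α ∧ n ∈ c.b ∧ N ≤ n ∧ m ≤ n
        · obtain ⟨rfl, h2, h3, h4⟩ := h1
          rw [hp1 n h2 h3 h4]
          exact key n h2 h3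
        · rw [hp2 i n h1]
          exact c.ne i n
      sub := fun i n => (hsub i n).trans (c.sub i n)
      cnt := by
        refine (c.supp_countable.union (countable_singleton α)).mono ?_
        rintro i ⟨n, hn⟩
        by_cases h1 : i = α
        · exact Or.inr h1
        · rw [hp2 i n (fun h => h1 h.1)] at hn
          exact Or.inl ⟨n, hn⟩
      lim := by
        intro i k
        by_cases h1 : i = α
        · subst h1
          obtain ⟨N', hN'⟩ := h k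
          refine ⟨N', fun n hn hle => ?_⟩
          have h2 : max N m ≤ n := hn.2
          rw [hp1 n hn.1 ((le_max_left _ _).trans h2) ((le_max_right _ _).trans h2)]
          exact hN' n hn.1 hle
        · obtain ⟨N', hN'⟩ := c.lim i k
          refine ⟨N', fun n hn hle => ?_⟩
          rw [hp2 i n (fun h => h1 h.1)]
          exact hN' n hn.1 hle }
  refine ⟨d, ⟨inter_subset_left, hsub⟩, ?_, ?_, ?_⟩
  · intro n hn
    exact (le_max_right N m).trans hn.2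
  · intro i n hn
    exact hp2 i n (fun h => absurd h.2.2.2 (not_le.2 hn))
  · intro n hn j hj
    have h2 : max N m ≤ n := hn.2
    have h3 : j ∈ p' α n := hj
    rw [hp1 n hn.1 ((le_max_left _ _).trans h2) ((le_max_right _ _).trans h2)] at h3
    exact (Finset.mem_filter.1 h3).2

/-- **The last fusion.** -/
theorem last_fusion (q₂ : Cond I) (α : I) (y : ℕ → ℕ → ℕ) (𝒢 : Set (Cond I))
    (hopen : ∀ c ∈ 𝒢, ∀ d ≤ c, d ∈ 𝒢)
    (hG : ∀ c ≤ q₂, ∀ i, (∀ n ∈ c.b, ∀ j ∈ c.p α n, y n j = i) → ∃ e ≤ c, e ∈ 𝒢)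
    (hy : ∀ i k, ∃ N, ∀ n ∈ q₂.b, N ≤ n → k ≤ ((q₂.p α n).filter fun j => y n j = i).card)
    (V : ℕ → Finset (I × ℕ)) :
    ∃ q ≤ q₂, (∀ m, ∃ N, ∀ n ∈ q.b, N ≤ n → ∀ j ∈ q.p α n, m ≤ y n j) ∧
      ∀ n ∈ q.b, ∃ (e : Cond I) (P P' : Finset (I × ℕ)), e ≤ q₂ ∧ n ∈ e.b ∧ V n ⊆ P' ∧ P ⊆ P' ∧
        (∀ i k, (i, k) ∈ P' → q.p i k ⊆ e.p i k) ∧ ∀ h, Val e P h → e.fix P h ∈ 𝒢 := by
  classical
  -- the coordinates
  obtain ⟨F, hF, hαF, hZ⟩ : ∃ F : ℕ → Finset I, Monotone F ∧ (∀ t, α ∈ F t) ∧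
      ∀ i, (i ∈ q₂.supp ∨ i = α ∨ ∃ n, ∃ x ∈ V n, x.1 = i) → ∃ s, i ∈ F s := by
    let Z : Set I := q₂.supp ∪ {α} ∪ ⋃ n, ((V n).image Prod.fst : Finset I)
    have hZc : Z.Countable := (q₂.supp_countable.union (countable_singleton α)).union
      (countable_iUnion fun n => Finset.countable_toSet _)
    have hZn : Z.Nonempty := ⟨α, Or.inl (Or.inr rfl)⟩
    obtain ⟨f, hf⟩ := hZc.exists_eq_range hZn
    refine ⟨fun t => insert α ((Finset.range t).image f), ?_, fun t => Finset.mem_insert_self _ _, ?_⟩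
    · intro a b hab
      exact Finset.insert_subset_insert _ (Finset.image_subset_image (Finset.range_mono hab))
    · intro i hi
      have : i ∈ Z := by
        rcases hi with hi | rfl | ⟨n, x, hx, rfl⟩
        · exact Or.inl (Or.inl hi)
        · exact Or.inl (Or.inr rfl)
        · exact Or.inr (mem_iUnion.2 ⟨n, Finset.mem_coe.2 (Finset.mem_image.2 ⟨x, hx, rfl⟩)⟩)
      rw [hf] at this
      obtain ⟨j, rfl⟩ := this
      exact ⟨j + 1, Finset.mem_insert_of_mem (Finset.mem_image.2 ⟨j, by simp, rfl⟩)⟩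
  let Inv : CS I → Prop := fun S => S.c ≤ q₂ ∧ S.c.b = q₂.b ∩ Ici S.m ∧ (∀ x ∈ S.P, x.2 < S.m) ∧
    (∀ i n, (i, n) ∉ S.P → S.c.p i n = q₂.p i n) ∧ (∀ x ∈ S.P, ∃ s, x.1 ∈ F s)
  let R : CS I → CS I → Prop := fun S S' =>
    S'.c ≤ S.c ∧ S'.n ∈ S.c.b ∧ S.m ≤ S'.n ∧ S'.n < S'.m ∧ S'.r = S.r + 1 ∧
    S.P ⊆ S'.P ∧ V S'.n ⊆ S'.P ∧ (∀ i ∈ F S.r, (i, S'.n) ∈ S'.P) ∧
    (∀ i k, (i, k) ∈ S.P → S'.c.p i k = S.c.p i k) ∧
    (∀ i ∈ F S.r, S.r ≤ (S'.c.p i S'.n).card) ∧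
    S'.e ≤ S.c ∧ S'.n ∈ S'.e.b ∧ (∀ i k, (i, k) ∈ S'.P → S'.c.p i k ⊆ S'.e.p i k) ∧
    (∀ h, Val S'.e S.P h → S'.e.fix S.P h ∈ 𝒢) ∧ ∀ j ∈ S'.c.p α S'.n, y S'.n j = S.r
  obtain ⟨f, hf0, hfI, hfR⟩ := exists_iter (R := R) (Inv := Inv)
    ⟨q₂, q₂, 0, 0, 0, ∅⟩ ⟨le_rfl, by
        simp only [Set.Ici, Nat.zero_le, Set.ofPred_true, inter_univ], fun x hx => absurd hx (Finset.notMem_empty x),
      fun i n _ => rfl, fun x hx => absurd hx (Finset.notMem_empty x)⟩ (by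
    rintro S ⟨hS1, hS2, hS3, hS4, hS5⟩
    -- restrict `α` to the colour `S.r`
    obtain ⟨d, hd1, hd2, hd3, hd4⟩ := exists_restrict S.c α y S.r S.m (by
      intro k
      obtain ⟨N, hN⟩ := hy S.r k
      refine ⟨max N S.m, fun n hn hle => ?_⟩
      rw [hS2] at hn
      rw [hS4 α n (fun h => absurd (hS3 _ h) (not_lt.2 hn.2))]
      exact hN n hn.1 ((le_max_left _ _).trans hle))
    -- extend
    obtain ⟨e, he1, -, he3, he4⟩ := lemA (D := Set.univ) hopen (c := d) (by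
      intro c hc
      obtain ⟨e, he1, he2⟩ := hG c ((hc.trans hd1).trans hS1) S.r
        (fun n hn j hj => hd4 n (hc.1 hn) j (hc.2 _ _ hj))
      exact ⟨e, he1, fun i hi => absurd (mem_univ i) hi, he2⟩) S.P
    have heP : ∀ i k, (i, k) ∈ S.P → e.p i k = S.c.p i k := fun i k hik => by
      rw [he3 i k hik, hd3 i k (hS3 _ hik)]
    have heS : e ≤ S.c := he1.trans hd1
    -- the level
    obtain ⟨n, hn, hmn, hcard⟩ := exists_level e (F S.r) S.m S.r
    let P' : Finset (I × ℕ) := S.P ∪ V n ∪ (F S.r).image (fun i => (i, n))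
    let m' : ℕ := max (n + 1) ((P'.image Prod.snd).sup id + 1)
    have hm' : ∀ x ∈ P', x.2 < m' := by
      intro x hx
      have h3 : x.2 ≤ (P'.image Prod.snd).sup id :=
        Finset.le_sup (f := id) (Finset.mem_image.2 ⟨x, hx, rfl⟩)
      exact lt_of_lt_of_le (Nat.lt_succ_of_le h3) (le_max_right _ _)
    have hnm' : n < m' := lt_of_lt_of_le (Nat.lt_succ_self n) (le_max_left _ _)
    have hSm : S.m ≤ m' := hmn.trans hnm'.le
    obtain ⟨g, hg⟩ := exists_val e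
    let s : I → ℕ → Finset ℕ := fun i k => if (i, k) ∈ S.P then S.c.p i k else
      if k = n ∧ i ∈ F S.r then e.p i k else {g i k}
    have hs : ∀ i k, (s i k).Nonempty ∧ s i k ⊆ e.p i k := by
      intro i k
      by_cases h1 : (i, k) ∈ S.P
      · simp only [s, if_pos h1]
        exact ⟨S.c.ne i k, (heP i k h1).symm.subset⟩
      · by_cases h2 : k = n ∧ i ∈ F S.r
        · simp only [s, if_neg h1, if_pos h2]
          exact ⟨e.ne i k, Finset.Subset.refl _⟩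
        · simp only [s, if_neg h1, if_neg h2]
          exact ⟨Finset.singleton_nonempty _, Finset.singleton_subset_iff.2 (hg i k)⟩
    let c' : Cond I := (S.c.cut m').upd P' s (fun x _ => (hs _ _).1)
      (fun x _ => (hs _ _).2.trans (e.sub _ _))
    have hc'P : ∀ i k, (i, k) ∈ P' → c'.p i k = s i k := fun i k h => upd_mem _ _ _ _ h
    have hc'N : ∀ i k, (i, k) ∉ P' → c'.p i k = S.c.p i k := fun i k h => upd_not_mem _ _ _ _ h
    have hc'S : c' ≤ S.c := by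
      refine ⟨inter_subset_left, fun i k => ?_⟩
      by_cases h1 : (i, k) ∈ P'
      · rw [hc'P i k h1]
        exact (hs i k).2.trans (heS.2 i k)
      · rw [hc'N i k h1]
    have hFP : ∀ i ∈ F S.r, (i, n) ∈ P' := fun i hi =>
      Finset.mem_union_right _ (Finset.mem_image.2 ⟨i, hi, rfl⟩)
    have hsn : ∀ i ∈ F S.r, s i n = e.p i n := by
      intro i hi
      have h1 : (i, n) ∉ S.P := fun h => absurd (hS3 _ h) (not_lt.2 hmn)
      simp only [s, if_neg h1]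
      rw [if_pos ⟨trivial, hi⟩]
    refine ⟨⟨c', e, S.r + 1, n, m', P'⟩, ⟨hc'S.trans hS1, ?_, hm', ?_, ?_⟩, hc'S, heS.1 hn, hmn,
      hnm', rfl, Finset.subset_union_left.trans Finset.subset_union_left,
      Finset.subset_union_right.trans Finset.subset_union_left, hFP, ?_, ?_, heS, hn, ?_, ?_, ?_⟩
    · change S.c.b ∩ Ici m' = q₂.b ∩ Ici m'
      rw [hS2, inter_assoc]
      congr 1
      exact inter_eq_right.2 (Ici_subset_Ici.2 hSm)
    · intro i k hik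
      rw [hc'N i k hik]
      exact hS4 i k (fun h => hik (Finset.mem_union_left _ (Finset.mem_union_left _ h)))
    · intro x hx
      rcases Finset.mem_union.1 hx with hx | hx
      · rcases Finset.mem_union.1 hx with hx | hx
        · exact hS5 x hx
        · exact hZ _ (Or.inr (Or.inr ⟨n, x, hx, rfl⟩))
      · obtain ⟨i, hi, rfl⟩ := Finset.mem_image.1 hx
        exact ⟨_, hi⟩
    · intro i k hik
      change c'.p i k = S.c.p i k
      rw [hc'P i k (Finset.mem_union_left _ (Finset.mem_union_left _ hik))]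
      simp only [s, if_pos hik]
    · intro i hi
      change S.r ≤ (c'.p i n).card
      rw [hc'P i n (hFP i hi), hsn i hi]
      exact hcard i hi
    · intro i k hik
      change c'.p i k ⊆ e.p i k
      rw [hc'P i k hik]
      exact (hs i k).2
    · intro h hv
      refine he4 h fun i k hik => ?_
      have := hv i k hik
      rwa [he3 i k hik] at this
    · intro j hj
      change j ∈ c'.p α n at hj
      rw [hc'P α n (hFP α (hαF _)), hsn α (hαF _)] at hj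
      exact hd4 n (he1.1 hn) j (he1.2 _ _ hj))
  have hr : ∀ t, (f t).r = t := by
    intro t
    induction t with
    | zero => rw [hf0]
    | succ t ih => rw [(hfR t).2.2.2.2.1, ih]
  let n : ℕ → ℕ := fun t => (f (t + 1)).n
  have hn : StrictMono n := by
    refine strictMono_nat_of_lt_succ fun t => ?_
    exact (hfR t).2.2.2.1.trans_le (hfR (t + 1)).2.2.1
  obtain ⟨q, hq1, -, hq3, -, -, hq6, hq7, -⟩ := limit (D := Set.univ) (fun t => (f t).c) n F
    (fun t => (f t).P) (fun t => (hfR t).1) (fun t i hi => absurd (mem_univ i) hi)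
    (fun t => (hfR t).2.1) hn hF
    (fun t i hi => by
      have h1 := (hfR t).2.2.2.2.2.2.2.2.2.1 i (by rw [hr]; exact hi)
      rw [hr] at h1
      exact h1)
    (fun t i hi _ => by
      obtain ⟨k, hk⟩ := hi
      by_cases h1 : (i, k) ∈ (f t).P
      · exact (hfI t).2.2.2.2 _ h1
      · rw [(hfI t).2.2.2.1 i k h1] at hk
        exact hZ i (Or.inl ⟨k, hk⟩))
    (fun t => (hfR t).2.2.2.2.2.1)
    (fun t i hi => (hfR t).2.2.2.2.2.2.2.1 i (by rw [hr]; exact hi))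
    (fun t => (hfR t).2.2.2.2.2.2.2.2.1)
  have hf0c : (f 0).c = q₂ := by rw [hf0]
  refine ⟨q, by rw [← hf0c]; exact hq1, ?_, ?_⟩
  · intro m
    refine ⟨n m, ?_⟩
    rw [hq3]
    rintro _ ⟨t, rfl⟩ hle j hj
    have h1 := (hfR t).2.2.2.2.2.2.2.2.2.2.2.2.2.2 j (hq7 (t + 1) α _ hj)
    rw [hr] at h1
    rw [h1]
    exact hn.le_iff_le.1 hle
  · rw [hq3]
    rintro _ ⟨t, rfl⟩
    obtain ⟨-, -, -, -, -, h6, h7, -, -, -, h11, h12, h13, h14, -⟩ := hfR t
    refine ⟨(f (t + 1)).e, (f t).P, (f (t + 1)).P, h11.trans (hfI t).1, h12, h7, h6, ?_, h14⟩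
    intro i k hik
    exact (hq7 (t + 1) i k).trans (h13 i k hik)

/-- **The core theorem.** `t y n k q` = `q ⊩ G_y(n) = k`, `s n k q` = `q ⊩ F_α(n) = k`. -/
theorem core (hI : 2 ^ ℵ₀ < #I) (E : ℕ → ℕ → Prop) (p₀ : Cond I)
    (t : (ℕ → ℕ → ℕ) → ℕ → ℕ → Cond I → Prop)
    (t_mono : ∀ y n k q r, t y n k q → r ≤ q → t y n k r)
    (t_fun : ∀ y n k k', ∀ q ≤ p₀, t y n k q → t y n k' q → k = k')
    (t_tot : ∀ y n, ∀ q ≤ p₀, ∃ r ≤ q, ∃ k, t y n k r) :
    ∃ α : I, ∀ p₁ ≤ p₀, ∀ s : ℕ → ℕ → Cond I → Prop,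
      (∀ n k q r, s n k q → r ≤ q → s n k r) →
      (∀ n k k', ∀ q ≤ p₁, s n k q → s n k' q → k = k') →
      (∀ n, ∀ q ≤ p₁, ∃ r ≤ q, ∃ k, s n k r) →
      ∃ (y : ℕ → ℕ → ℕ) (q : Cond I), q ≤ p₁ ∧
        ((∃ i, (∀ n ∈ q.b, ∀ j ∈ q.p α n, y n j = i) ∧
            ∀ n ∈ q.b, ∀ r ≤ q, ∀ k l, s n k r → t y n l r → E k l) ∨
          ((∀ m, ∃ N, ∀ n ∈ q.b, N ≤ n → ∀ j ∈ q.p α n, m ≤ y n j) ∧
            ∀ n ∈ q.b, ∀ r ≤ q, ∀ k l, s n k r → t y n l r → ¬ E k l)) := by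
  classical
  obtain ⟨D, hD1, hD2⟩ := exists_small p₀ t t_mono t_tot
  obtain ⟨α, hα⟩ : ∃ α : I, α ∉ D := by
    by_contra hcon
    push Not at hcon
    have h1 : D = Set.univ := eq_univ_of_forall hcon
    rw [h1, mk_univ] at hD1
    exact absurd hI (not_lt.2 hD1)
  refine ⟨α, ?_⟩
  intro p₁ hp₁ s s_mono s_fun s_tot
  -- decide `F_α`
  obtain ⟨q₁, hq₁, -, V₁, hV₁⟩ := fusion' (D := Set.univ) p₁ (fun n => {c | ∃ k, s n k c})
    (fun n c hc d hd => by
      obtain ⟨k, hk⟩ := hc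
      exact ⟨k, s_mono n k c d hk hd⟩)
    (fun n d hd => by
      obtain ⟨r, hr, h⟩ := s_tot n d hd
      exact ⟨r, hr, fun i hi => absurd (mem_univ i) hi, h⟩)
  -- choose `y`
  choose y hy using fun n => exists_colouring (q₁.p α n)
  -- decide `G_y`
  obtain ⟨q₂, hq₂, hoff, V₂, hV₂⟩ := fusion' (D := D) q₁ (fun n => {c | ∃ k, t y n k c})
    (fun n c hc d hd => by
      obtain ⟨k, hk⟩ := hc
      exact ⟨k, t_mono y n k c d hk hd⟩)
    (fun n d hd => hD2 y n d ((hd.trans hq₁).trans hp₁))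
  refine ⟨y, ?_⟩
  by_contra hcon
  push Not at hcon
  let 𝒢 : Set (Cond I) := {c | c ≤ p₁ ∧ ∀ n ∈ c.b, ∀ r ≤ c, ∀ k l, s n k r → t y n l r → ¬ E k l}
  have hq₂p : q₂ ≤ p₁ := hq₂.trans hq₁
  have hG : ∀ c ≤ q₂, ∀ i, (∀ n ∈ c.b, ∀ j ∈ c.p α n, y n j = i) → ∃ e ≤ c, e ∈ 𝒢 := by
    intro c hc i hci
    obtain ⟨q, hq, h⟩ := decide_set (c := c)
      (fun n r => r ≤ p₁ ∧ ∃ k l, s n k r ∧ t y n l r ∧ E k l)
      (fun n r => r ≤ p₁ ∧ ∃ k l, s n k r ∧ t y n l r ∧ ¬ E k l)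
      (by
        rintro n q r ⟨h0, k, l, h1, h2, h3⟩ hr
        exact ⟨hr.trans h0, k, l, s_mono _ _ _ _ h1 hr, t_mono _ _ _ _ _ h2 hr, h3⟩)
      (by
        rintro n q r ⟨h0, k, l, h1, h2, h3⟩ hr
        exact ⟨hr.trans h0, k, l, s_mono _ _ _ _ h1 hr, t_mono _ _ _ _ _ h2 hr, h3⟩)
      (by
        rintro n q ⟨h0, k, l, h1, h2, h3⟩ ⟨-, k', l', h1', h2', h3'⟩
        rw [s_fun n k' k q h0 h1' h1, t_fun y n l' l q (h0.trans hp₁) h2' h2] at h3'
        exact h3' h3)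
      (by
        intro n q hq
        obtain ⟨r, hr, k, hk⟩ := s_tot n q ((hq.trans hc).trans hq₂p)
        obtain ⟨r', hr', l, hl⟩ := t_tot y n r (((hr.trans hq).trans hc).trans (hq₂p.trans hp₁))
        have hr'p : r' ≤ p₁ := (((hr'.trans hr).trans hq).trans hc).trans hq₂p
        refine ⟨r', hr'.trans hr, ?_⟩
        by_cases hE : E k l
        · exact Or.inl ⟨hr'p, k, l, s_mono _ _ _ _ hk hr', hl, hE⟩
        · exact Or.inr ⟨hr'p, k, l, s_mono _ _ _ _ hk hr', hl, hE⟩)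
    have hqp : q ≤ p₁ := (hq.trans hc).trans hq₂p
    rcases h with h | h
    · exfalso
      obtain ⟨n, hn, r, hr, k, l, h1, h2, h3⟩ := (hcon q hqp).1 i
        (fun n hn j hj => hci n (hq.1 hn) j (hq.2 _ _ hj))
      exact h n hn r hr ⟨hr.trans hqp, k, l, h1, h2, h3⟩
    · refine ⟨q, hq, hqp, ?_⟩
      intro n hn r hr k l h1 h2 h3
      exact h n hn r hr ⟨hr.trans hqp, k, l, h1, h2, h3⟩
  obtain ⟨q, hq, hqy, hqe⟩ := last_fusion q₂ α y 𝒢
    (by
      rintro c ⟨hc1, hc2⟩ d hd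
      exact ⟨hd.trans hc1, fun n hn r hr => hc2 n (hd.1 hn) r (hr.trans hd)⟩) hG
    (by
      intro i k
      obtain ⟨N, hN⟩ := q₁.lim α ((max k (i + 1)) * (max k (i + 1)))
      refine ⟨N, fun n hn hle => ?_⟩
      rw [hoff α hα n]
      have h1 := hN n (hq₂.1 hn) hle
      have h2 : max k (i + 1) ≤ Nat.sqrt (q₁.p α n).card := Nat.le_sqrt.2 h1
      exact (le_max_left _ _).trans (h2.trans (hy n i (by
        have := (le_max_right k (i + 1)).trans h2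
        omega))))
    (fun n => V₁ n ∪ V₂ n)
  obtain ⟨n, hn, r, hr, k, l, h1, h2, h3⟩ := (hcon q (hq.trans hq₂p)).2 hqy
  obtain ⟨e, P, P', he1, he2, he3, he4, he5, he6⟩ := hqe n hn
  obtain ⟨g, hg⟩ := exists_val r
  have hgq : ∀ i k, g i k ∈ q.p i k := fun i k => hr.2 i k (hg i k)
  have hge : Val e P' g := fun i k hik => he5 i k hik (hgq i k)
  -- the decisions
  have hnq₂ : n ∈ q₂.b := hq.1 hn
  have hgq₂ : ∀ i k, g i k ∈ q₂.p i k := fun i k => hq.2 i k (hgq i k)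
  obtain ⟨k₀, hk₀⟩ : ∃ k₀, s n k₀ ((q₂.fix (V₁ n ∪ V₂ n) g).cut (n + 1)) := by
    obtain ⟨k₀, hk₀⟩ := hV₁ n (hq₂.1 hnq₂) g (fun i k _ => hq₂.2 i k (hgq₂ i k))
    exact ⟨k₀, s_mono _ _ _ _ hk₀ (cut_mono (fix_mono hq₂ (fun i k _ => hgq₂ i k)
      Finset.subset_union_left) _)⟩
  obtain ⟨l₀, hl₀⟩ : ∃ l₀, t y n l₀ ((q₂.fix (V₁ n ∪ V₂ n) g).cut (n + 1)) := by
    obtain ⟨l₀, hl₀⟩ := hV₂ n hnq₂ g (fun i k _ => hgq₂ i k)
    exact ⟨l₀, t_mono _ _ _ _ _ hl₀ (cut_mono (fix_mono le_rfl (fun i k _ => hgq₂ i k)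
      Finset.subset_union_right) _)⟩
  -- below `r`
  have hr'' : (r.fix (V₁ n ∪ V₂ n) g).cut (n + 1) ≤ (q₂.fix (V₁ n ∪ V₂ n) g).cut (n + 1) :=
    cut_mono (fix_mono (hr.trans hq) (fun i k _ => hg i k) (Finset.Subset.refl _)) _
  have hrr : (r.fix (V₁ n ∪ V₂ n) g).cut (n + 1) ≤ r := (cut_le _ _).trans (fix_le _ _ _)
  have hrp : (r.fix (V₁ n ∪ V₂ n) g).cut (n + 1) ≤ p₁ := (hrr.trans hr).trans (hq.trans hq₂p)
  have ek : k = k₀ := s_fun n k k₀ _ hrp (s_mono _ _ _ _ h1 hrr) (s_mono _ _ _ _ hk₀ hr'')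
  have el : l = l₀ := t_fun y n l l₀ _ (hrp.trans hp₁) (t_mono _ _ _ _ _ h2 hrr)
    (t_mono _ _ _ _ _ hl₀ hr'')
  subst ek; subst el
  -- below `e`
  have hw1 : (e.fix P' g).cut (n + 1) ≤ e.fix P g :=
    (cut_le _ _).trans (fix_mono le_rfl hge he4)
  have hw2 : (e.fix P' g).cut (n + 1) ≤ (q₂.fix (V₁ n ∪ V₂ n) g).cut (n + 1) :=
    cut_mono (fix_mono he1 hge he3) _
  exact (he6 g (hge.sub he4)).2 n he2 _ hw1 k l (s_mono _ _ _ _ hk₀ hw2)
    (t_mono _ _ _ _ _ hl₀ hw2) h3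

end Cond

end Pool.Agent.Helper89.FV
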