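import Mathlib

/-!
# The forcing notion
-/

set_option linter.unusedSectionVars false

open Set

namespace Pool.Agent.Helper89.FV

/-- Conditions `(b, p)`: an infinite set `b ⊆ ℕ` and nonempty sets `p i n ⊆ {0, ..., n}`, all equal
to `{0, ..., n}` for all but countably many `i`, whose sizes tend to infinity along `b`. -/
structure Cond (I : Type) where
  b : Set ℕ
  p : I → ℕ → Finset ℕ
  inf : b.Infinite
  ne : ∀ i n, (p i n).Nonempty
  sub : ∀ i n, p i n ⊆ Finset.range (n + 1)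
  cnt : {i | ∃ n, p i n ≠ Finset.range (n + 1)}.Countable
  lim : ∀ i m, ∃ N, ∀ n ∈ b, N ≤ n → m ≤ (p i n).card

namespace Cond

variable {I : Type}

theorem ext' {c d : Cond I} (h1 : c.b = d.b) (h2 : ∀ i n, c.p i n = d.p i n) : c = d := by
  have h3 : c.p = d.p := funext fun i => funext fun n => h2 i n
  cases c; cases d
  simp only at h1 h3
  subst h1; subst h3
  rfl

instance : PartialOrder (Cond I) where
  le c d := c.b ⊆ d.b ∧ ∀ i n, c.p i n ⊆ d.p i n
  le_refl c := ⟨Subset.rfl, fun _ _ => Finset.Subset.refl _⟩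
  le_trans c d e h1 h2 := ⟨h1.1.trans h2.1, fun i n => (h1.2 i n).trans (h2.2 i n)⟩
  le_antisymm c d h1 h2 := ext' (h1.1.antisymm h2.1) fun i n => (h1.2 i n).antisymm (h2.2 i n)

theorem le_def {c d : Cond I} : c ≤ d ↔ c.b ⊆ d.b ∧ ∀ i n, c.p i n ⊆ d.p i n := Iff.rfl

instance : OrderTop (Cond I) where
  top :=
    { b := univ
      p := fun _ n => Finset.range (n + 1)
      inf := infinite_univ
      ne := fun _ n => ⟨0, by simp⟩
      sub := fun _ _ => Finset.Subset.refl _
      cnt := by simp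
      lim := fun _ m => ⟨m, fun n _ h => by simp; omega⟩ }
  le_top c := ⟨subset_univ _, fun i n => c.sub i n⟩

/-- the support -/
def supp (c : Cond I) : Set I := {i | ∃ n, c.p i n ≠ Finset.range (n + 1)}

theorem supp_mono {c d : Cond I} (h : c ≤ d) : d.supp ⊆ c.supp := by
  rintro i ⟨n, hn⟩
  refine ⟨n, fun h1 => hn ?_⟩
  exact (d.sub i n).antisymm (h1 ▸ h.2 i n)

theorem supp_countable (c : Cond I) : c.supp.Countable := c.cnt

theorem p_of_not_supp {c : Cond I} {i : I} (h : i ∉ c.supp) (n : ℕ) :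
    c.p i n = Finset.range (n + 1) := by
  by_contra h1
  exact h ⟨n, h1⟩

open Classical in
/-- change the values on a finite set of places -/
noncomputable def upd (c : Cond I) (W : Finset (I × ℕ)) (s : I → ℕ → Finset ℕ)
    (hne : ∀ x ∈ W, (s x.1 x.2).Nonempty) (hsub : ∀ x ∈ W, s x.1 x.2 ⊆ Finset.range (x.2 + 1)) :
    Cond I where
  b := c.b
  p i n := if (i, n) ∈ W then s i n else c.p i n
  inf := c.inf
  ne i n := by
    split_ifs with h
    · exact hne _ h
    · exact c.ne i n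
  sub i n := by
    split_ifs with h
    · exact hsub _ h
    · exact c.sub i n
  cnt := by
    refine (c.cnt.union (W.image Prod.fst).countable_toSet).mono ?_
    rintro i ⟨n, hn⟩
    by_cases h : (i, n) ∈ W
    · right
      simp only [Finset.coe_image, mem_image, SetLike.mem_coe]
      exact ⟨(i, n), h, rfl⟩
    · left
      refine ⟨n, ?_⟩
      rwa [if_neg h] at hn
  lim i m := by
    obtain ⟨N, hN⟩ := c.lim i m
    refine ⟨max N ((W.image Prod.snd).sup id + 1), fun n hn h => ?_⟩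
    have h1 : (i, n) ∉ W := by
      intro h2
      have h3 : n ≤ (W.image Prod.snd).sup id :=
        Finset.le_sup (f := id) (Finset.mem_image.2 ⟨(i, n), h2, rfl⟩)
      have h4 := (le_max_right _ _).trans h
      omega
    rw [if_neg h1]
    exact hN n hn ((le_max_left _ _).trans h)

theorem upd_b (c : Cond I) (W : Finset (I × ℕ)) (s : I → ℕ → Finset ℕ) (hne) (hsub) :
    (c.upd W s hne hsub).b = c.b := rfl

theorem upd_mem (c : Cond I) {W : Finset (I × ℕ)} (s : I → ℕ → Finset ℕ) (hne) (hsub) {i : I}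
    {n : ℕ} (h : (i, n) ∈ W) : (c.upd W s hne hsub).p i n = s i n := if_pos h

theorem upd_not_mem (c : Cond I) {W : Finset (I × ℕ)} (s : I → ℕ → Finset ℕ) (hne) (hsub) {i : I}
    {n : ℕ} (h : (i, n) ∉ W) : (c.upd W s hne hsub).p i n = c.p i n := if_neg h

open Classical in
/-- fix the values on a finite set of places -/
noncomputable def fix (c : Cond I) (W : Finset (I × ℕ)) (h : I → ℕ → ℕ) : Cond I :=
  c.upd W (fun i n => if h i n ∈ c.p i n then {h i n} else c.p i n)
    (fun x _ => by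
      split_ifs
      · simp
      · exact c.ne _ _)
    (fun x _ => by
      split_ifs with h1
      · exact (Finset.singleton_subset_iff.2 h1).trans (c.sub _ _)
      · exact c.sub _ _)

theorem fix_b (c : Cond I) (W : Finset (I × ℕ)) (h : I → ℕ → ℕ) : (c.fix W h).b = c.b := rfl

theorem fix_mem (c : Cond I) {W : Finset (I × ℕ)} {h : I → ℕ → ℕ} {i : I} {n : ℕ}
    (h1 : (i, n) ∈ W) (h2 : h i n ∈ c.p i n) : (c.fix W h).p i n = {h i n} := by
  rw [fix, upd_mem _ _ _ _ h1, if_pos h2]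

theorem fix_not_mem (c : Cond I) {W : Finset (I × ℕ)} {h : I → ℕ → ℕ} {i : I} {n : ℕ}
    (h1 : (i, n) ∉ W) : (c.fix W h).p i n = c.p i n := by
  rw [fix, upd_not_mem _ _ _ _ h1]

theorem fix_le (c : Cond I) (W : Finset (I × ℕ)) (h : I → ℕ → ℕ) : c.fix W h ≤ c := by
  refine ⟨Subset.rfl, fun i n => ?_⟩
  by_cases h1 : (i, n) ∈ W
  · by_cases h2 : h i n ∈ c.p i n
    · rw [fix_mem c h1 h2]
      exact Finset.singleton_subset_iff.2 h2
    · rw [fix, upd_mem _ _ _ _ h1, if_neg h2]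
  · rw [fix_not_mem c h1]

/-- `h` is a history for `c` on `W` -/
def Val (c : Cond I) (W : Finset (I × ℕ)) (h : I → ℕ → ℕ) : Prop :=
  ∀ i n, (i, n) ∈ W → h i n ∈ c.p i n

theorem Val.mono {c d : Cond I} {W : Finset (I × ℕ)} {h : I → ℕ → ℕ} (hv : Val c W h)
    (hcd : c ≤ d) : Val d W h := fun i n hi => hcd.2 i n (hv i n hi)

theorem Val.sub {c : Cond I} {W V : Finset (I × ℕ)} {h : I → ℕ → ℕ} (hv : Val c W h)
    (hV : V ⊆ W) : Val c V h := fun i n hi => hv i n (hV hi)

theorem exists_val (c : Cond I) : ∃ h : I → ℕ → ℕ, ∀ i n, h i n ∈ c.p i n := by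
  choose h hh using c.ne
  exact ⟨h, hh⟩

theorem fix_mono {c d : Cond I} {W V : Finset (I × ℕ)} {h : I → ℕ → ℕ} (hcd : c ≤ d)
    (hv : Val c W h) (hV : V ⊆ W) : c.fix W h ≤ d.fix V h := by
  refine ⟨hcd.1, fun i n => ?_⟩
  by_cases h1 : (i, n) ∈ V
  · rw [fix_mem c (hV h1) (hv i n (hV h1)), fix_mem d h1 (hcd.2 i n (hv i n (hV h1)))]
  · rw [fix_not_mem d h1]
    exact ((fix_le c W h).2 i n).trans (hcd.2 i n)

theorem fix_congr {c : Cond I} {W : Finset (I × ℕ)} {h h' : I → ℕ → ℕ}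
    (he : ∀ i n, (i, n) ∈ W → h i n = h' i n) : c.fix W h = c.fix W h' := by
  refine ext' rfl fun i n => ?_
  by_cases h1 : (i, n) ∈ W
  · rw [fix, upd_mem _ _ _ _ h1, fix, upd_mem _ _ _ _ h1, he i n h1]
  · rw [fix_not_mem _ h1, fix_not_mem _ h1]

/-- drop the levels below `m` -/
def cut (c : Cond I) (m : ℕ) : Cond I where
  b := c.b ∩ Ici m
  p := c.p
  inf := by
    have h1 : c.b ⊆ (c.b ∩ Ici m) ∪ Iio m := by
      intro n hn
      by_cases h : m ≤ n
      · exact Or.inl ⟨hn, h⟩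
      · exact Or.inr (not_le.1 h)
    intro h2
    exact c.inf ((h2.union (finite_Iio m)).subset h1)
  ne := c.ne
  sub := c.sub
  cnt := c.cnt
  lim i k := by
    obtain ⟨N, hN⟩ := c.lim i k
    exact ⟨N, fun n hn h => hN n hn.1 h⟩

theorem cut_le (c : Cond I) (m : ℕ) : c.cut m ≤ c := ⟨inter_subset_left, fun _ _ => Finset.Subset.refl _⟩

theorem cut_mono {c d : Cond I} (h : c ≤ d) (m : ℕ) : c.cut m ≤ d.cut m :=
  ⟨inter_subset_inter_left _ h.1, h.2⟩

/-- agreement outside of `D` -/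
def Off (D : Set I) (c d : Cond I) : Prop := ∀ i ∉ D, ∀ n, c.p i n = d.p i n

theorem Off.refl (D : Set I) (c : Cond I) : Off D c c := fun _ _ _ => rfl

theorem Off.trans {D : Set I} {c d e : Cond I} (h : Off D c d) (h' : Off D d e) : Off D c e :=
  fun i hi n => (h i hi n).trans (h' i hi n)

/-- **Successive extension.** -/
theorem lemA {D : Set I} {𝒟 : Set (Cond I)} (hopen : ∀ c ∈ 𝒟, ∀ d ≤ c, d ∈ 𝒟) {c : Cond I}
    (hd : ∀ d ≤ c, ∃ e ≤ d, Off D e d ∧ e ∈ 𝒟) (W : Finset (I × ℕ)) :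
    ∃ r ≤ c, Off D r c ∧ (∀ i n, (i, n) ∈ W → r.p i n = c.p i n) ∧
      ∀ h, Val c W h → r.fix W h ∈ 𝒟 := by
  classical
  let ex : (W → ℕ) → I → ℕ → ℕ := fun g i n => if h : (i, n) ∈ W then g ⟨(i, n), h⟩ else 0
  have hex : ∀ (g : W → ℕ) i n (h : (i, n) ∈ W), ex g i n = g ⟨(i, n), h⟩ := fun g i n h =>
    dif_pos h
  have key : ∀ L : Finset (W → ℕ), (∀ g ∈ L, Val c W (ex g)) →
      ∃ r ≤ c, Off D r c ∧ (∀ i n, (i, n) ∈ W → r.p i n = c.p i n) ∧
        ∀ g ∈ L, r.fix W (ex g) ∈ 𝒟 := by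
    intro L
    induction L using Finset.induction with
    | empty =>
      intro _
      exact ⟨c, le_rfl, Off.refl _ _, fun _ _ _ => rfl, fun g hg => absurd hg (Finset.notMem_empty g)⟩
    | insert g L hgL ih =>
      intro hL
      obtain ⟨r, hrc, hoff, hW, hr⟩ := ih fun g' hg' => hL g' (Finset.mem_insert_of_mem hg')
      have hg := hL g (Finset.mem_insert_self g L)
      have hgr : Val r W (ex g) := fun i n hi => by rw [hW i n hi]; exact hg i n hi
      obtain ⟨e, he, heoff, heD⟩ := hd (r.fix W (ex g)) ((fix_le r W _).trans hrc)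
      have hne : ∀ x ∈ W, (c.p x.1 x.2).Nonempty := fun x _ => c.ne _ _
      have hsub : ∀ x ∈ W, c.p x.1 x.2 ⊆ Finset.range (x.2 + 1) := fun x _ => c.sub _ _
      have hr' : e.upd W c.p hne hsub ≤ r := by
        refine ⟨he.1, fun i n => ?_⟩
        by_cases h1 : (i, n) ∈ W
        · rw [upd_mem _ _ _ _ h1, hW i n h1]
        · rw [upd_not_mem _ _ _ _ h1]
          have := he.2 i n
          rwa [fix_not_mem _ h1] at this
      refine ⟨e.upd W c.p hne hsub, hr'.trans hrc, ?_, ?_, ?_⟩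
      · intro i hi n
        by_cases h1 : (i, n) ∈ W
        · rw [upd_mem _ _ _ _ h1]
        · rw [upd_not_mem _ _ _ _ h1, heoff i hi n, fix_not_mem _ h1, hoff i hi n]
      · intro i n h1
        rw [upd_mem _ _ _ _ h1]
      · intro g' hg'
        rcases Finset.mem_insert.1 hg' with rfl | hg'
        · have h2 : (e.upd W c.p hne hsub).fix W (ex g') = e := by
            refine ext' rfl fun i n => ?_
            by_cases h1 : (i, n) ∈ W
            · rw [fix_mem _ h1 (by rw [upd_mem _ _ _ _ h1]; exact hg i n h1)]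
              have h3 := he.2 i n
              rw [fix_mem _ h1 (hgr i n h1)] at h3
              rcases Finset.subset_singleton_iff.1 h3 with h4 | h4
              · exact absurd h4 (e.ne i n).ne_empty
              · exact h4.symm
            · rw [fix_not_mem _ h1, upd_not_mem _ _ _ _ h1]
          rw [h2]
          exact heD
        · refine hopen _ (hr g' hg') _ (fix_mono hr' ?_ (Finset.Subset.refl _))
          intro i n h1
          rw [upd_mem _ _ _ _ h1]
          exact hL g' (Finset.mem_insert_of_mem hg') i n h1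
  obtain ⟨r, h1, h2, h3, h4⟩ := key (Fintype.piFinset fun x : W => c.p x.1.1 x.1.2) (by
    intro g hg i n hi
    rw [hex g i n hi]
    exact Fintype.mem_piFinset.1 hg ⟨(i, n), hi⟩)
  refine ⟨r, h1, h2, h3, fun h hv => ?_⟩
  have h5 : (fun x : W => h x.1.1 x.1.2) ∈ Fintype.piFinset fun x : W => c.p x.1.1 x.1.2 :=
    Fintype.mem_piFinset.2 fun x => hv _ _ x.2
  have h6 := h4 _ h5
  rwa [fix_congr (h' := h) (fun i n hi => hex (fun x : W => h x.1.1 x.1.2) i n hi)] at h6

end Cond

end Pool.Agent.Helper89.FV
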