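import Pool.Agent.Helper89.FV.Defs

/-!
# Auxiliary notions for the proof
-/

namespace Pool.Agent.Helper89.FV

open Pool.Agent.Helper96.Fc

/-- `a` is a unitary element of the algebra -/
def IsU (a : Alg) : Prop := adj a * a = 1 ∧ a * adj a = 1

/-- the commutator -/
noncomputable def cmt (a b : Alg) : Alg := a * b * adj a * adj b

/-- `π ∈ N` represents a homomorphism of `U(R^U)` into itself with trace `0` outside of `1`: it is
a set of pairs `(x, s)` of sequences that represent unitaries. -/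
structure SeqHom (N : Set ZFSet.{0}) (U π : ZFSet.{0}) : Prop where
  mem : π ∈ N
  sub : ∀ z ∈ π, ∃ x s : ℕ → ℕ, z = ZFSet.pair (graph x) (graph s) ∧ Uni N U x ∧ Uni N U s
  tot : ∀ x, Uni N U x → ∃ s, ZFSet.pair (graph x) (graph s) ∈ π
  mul : ∀ x s y t z w, ZFSet.pair (graph x) (graph s) ∈ π → ZFSet.pair (graph y) (graph t) ∈ π →
    ZFSet.pair (graph z) (graph w) ∈ π →
    Eqv U (fun n => dec (x n) * dec (y n)) (fun n => dec (z n)) →
    Eqv U (fun n => dec (s n) * dec (t n)) (fun n => dec (w n))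
  zero : ∀ x s, ZFSet.pair (graph x) (graph s) ∈ π → ¬ Eqv U (fun n => dec (x n)) (fun _ => 1) →
    Null U fun n => ‖tr (dec (s n))‖

/-- the ternary relation `R` on `ℕ` belongs to `N` -/
def Tab (N : Set ZFSet.{0}) (R : ℕ → ℕ → ℕ → Prop) : Prop :=
  ∃ T ∈ N, ∀ z, z ∈ T ↔ ∃ k l m, R k l m ∧ z = ZFSet.pair (ZFSet.pair (nat k) (nat l)) (nat m)

/-- the tables of the operations belong to `N` -/
structure Tabs (N : Set ZFSet.{0}) : Prop where
  mul : ∃ f : ℕ → ℕ → ℕ, (∀ k l, dec (f k l) = dec k * dec l) ∧ Tab N fun k l m => m = f k l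
  adj : ∃ f : ℕ → ℕ, (∀ k, dec (f k) = adj (dec k)) ∧ Tab N fun k l m => l = 0 ∧ m = f k
  dist : Tab N fun k l m => nsq (dec k - dec l) < 1 / ((m : ℝ) + 1)
  op : Tab N fun k l m => l = 0 ∧ OpLe m (dec k)

end Pool.Agent.Helper89.FV
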