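import Pool.Agent.Helper89.FV.Fusion
import Pool.Agent.Helper14.FV.PR

/-!
# Dense decision of subsets of `ℕ`
-/

set_option linter.unusedSectionVars false

open Set

namespace Pool.Agent.Helper89.FV

namespace Cond

variable {I : Type}

/-- **Dense decision of subsets of `ℕ`.** -/
theorem decide_set {c : Cond I} (X₁ X₀ : ℕ → Cond I → Prop)
    (mono₁ : ∀ n q r, X₁ n q → r ≤ q → X₁ n r) (mono₀ : ∀ n q r, X₀ n q → r ≤ q → X₀ n r)
    (excl : ∀ n q, X₁ n q → ¬ X₀ n q)
    (dense : ∀ n, ∀ q ≤ c, ∃ r ≤ q, X₁ n r ∨ X₀ n r) :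
    ∃ q ≤ c, (∀ n ∈ q.b, ∀ r ≤ q, ¬ X₀ n r) ∨ (∀ n ∈ q.b, ∀ r ≤ q, ¬ X₁ n r) := by
  classical
  obtain ⟨q, n, F, W, hqc, -, hqb, hn, hF, -, -, hsupp, hcard, hW, hdec⟩ :=
    fusion (D := univ) c (fun n => {d | X₁ n d ∨ X₀ n d})
    (by
      rintro n d (hd | hd) e he
      · exact Or.inl (mono₁ n d e hd he)
      · exact Or.inr (mono₀ n d e hd he))
    (fun n d hd => by
      obtain ⟨r, hr, h⟩ := dense n d hd
      exact ⟨r, hr, fun i hi => absurd (mem_univ i) hi, h⟩) ∅ (fun i hi => absurd hi (Finset.notMem_empty i))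
  -- histories indexed by the stages
  let inv : ℕ → ℕ := Function.invFun n
  have hinv : ∀ t, inv (n t) = t := Function.leftInverse_invFun hn.injective
  let H : (ℕ → I → ℕ) → I → ℕ → ℕ := fun h i k => h (inv k) i
  have hH : ∀ h i t, H h i (n t) = h t i := fun h i t => by
    simp only [H, hinv]
  have hWmem : ∀ t s i, s ≤ t → i ∈ F s → (i, n s) ∈ W t := fun t s i hst hi =>
    (hW t _).2 ⟨s, hst, rfl, hi⟩
  have hval : ∀ t h, (∀ s ≤ t, ∀ i ∈ F s, h s i ∈ q.p i (n s)) → Val q (W t) (H h) := by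
    intro t h hh i k hik
    obtain ⟨s, hs, h1, h2⟩ := (hW t _).1 hik
    simp only at h1 h2
    subst h1
    rw [hH]
    exact hh s hs i h2
  obtain ⟨T, J, hT, hJ, hJc, hcol⟩ := Pool.Agent.Helper14.FV.partition_theorem F hF
    (fun t i => q.p i (n t)) (fun t i hi => ⟨q.ne _ _, hcard t i hi⟩)
    (fun t h => X₁ (n t) ((q.fix (W t) (H h)).cut (n t + 1))) (by
      intro t h h' hh
      have : q.fix (W t) (H h) = q.fix (W t) (H h') := by
        refine fix_congr fun i k hik => ?_
        obtain ⟨s, hs, h1, h2⟩ := (hW t _).1 hik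
        simp only at h1 h2
        subst h1
        rw [hH, hH]
        exact hh s hs i h2
      rw [this])
  -- the thinned condition
  let p' : I → ℕ → Finset ℕ := fun i k =>
    if h : ∃ t, n t = k ∧ i ∈ F t then J (Classical.choose h) i else q.p i k
  have hp'1 : ∀ i t, i ∈ F t → p' i (n t) = J t i := by
    intro i t hi
    have h : ∃ s, n s = n t ∧ i ∈ F s := ⟨t, rfl, hi⟩
    simp only [p']
    rw [dif_pos h]
    have h1 := hn.injective (Classical.choose_spec h).1
    rw [h1]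
  have hp'2 : ∀ i k, (¬ ∃ t, n t = k ∧ i ∈ F t) → p' i k = q.p i k := fun i k h => dif_neg h
  have hp'sub : ∀ i k, p' i k ⊆ q.p i k := by
    intro i k
    by_cases h : ∃ t, n t = k ∧ i ∈ F t
    · obtain ⟨t, rfl, hi⟩ := h
      rw [hp'1 i t hi]
      exact (hJ t i hi).2
    · rw [hp'2 i k h]
  let q' : Cond I :=
    { b := n '' T
      p := p'
      inf := hT.image hn.injective.injOn
      ne := by
        intro i k
        by_cases h : ∃ t, n t = k ∧ i ∈ F t
        · obtain ⟨t, rfl, hi⟩ := h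
          rw [hp'1 i t hi]
          exact (hJ t i hi).1
        · rw [hp'2 i k h]
          exact q.ne i k
      sub := fun i k => (hp'sub i k).trans (q.sub i k)
      cnt := by
        refine (q.supp_countable.union (countable_iUnion fun t => (F t).countable_toSet)).mono ?_
        rintro i ⟨k, hk⟩
        by_cases h : ∃ t, n t = k ∧ i ∈ F t
        · obtain ⟨t, -, hi⟩ := h
          exact Or.inr (mem_iUnion.2 ⟨t, hi⟩)
        · rw [hp'2 i k h] at hk
          exact Or.inl ⟨k, hk⟩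
      lim := by
        intro i m
        by_cases hi : ∃ s, i ∈ F s
        · obtain ⟨s, hs⟩ := hi
          obtain ⟨N, hN⟩ := hJc s i hs m
          refine ⟨n (max N s), ?_⟩
          rintro _ ⟨t, ht, rfl⟩ hle
          have h1 := hn.le_iff_le.1 hle
          rw [hp'1 i t (hF ((le_max_right _ _).trans h1) hs)]
          exact hN t ht ((le_max_left _ _).trans h1)
        · refine ⟨m, fun k _ hk => ?_⟩
          have h1 : i ∉ q.supp := fun h => hi (hsupp i h (mem_univ i))
          rw [hp'2 i k (fun ⟨t, _, h⟩ => hi ⟨t, h⟩), p_of_not_supp h1, Finset.card_range]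
          omega }
  have hq' : q' ≤ q := by
    refine ⟨?_, hp'sub⟩
    rintro _ ⟨t, -, rfl⟩
    rw [hqb]
    exact mem_range_self t
  -- reading the colour below a condition
  have hread : ∀ t ∈ T, ∀ r ≤ q', ∃ h : ℕ → I → ℕ, (∀ s ≤ t, ∀ i ∈ F s, h s i ∈ J s i) ∧
      (r.fix (W t) (H h)).cut (n t + 1) ≤ r ∧
      (r.fix (W t) (H h)).cut (n t + 1) ≤ (q.fix (W t) (H h)).cut (n t + 1) ∧
      Val q (W t) (H h) := by
    intro t _ r hr
    obtain ⟨g, hg⟩ := exists_val r
    have hv : Val r (W t) (H fun s i => g i (n s)) := by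
      intro i k hik
      obtain ⟨s, hs, h1, h2⟩ := (hW t _).1 hik
      simp only at h1 h2
      subst h1
      exact (hH (fun s i => g i (n s)) i s).symm ▸ hg i (n s)
    refine ⟨fun s i => g i (n s), ?_, (cut_le _ _).trans (fix_le _ _ _),
      cut_mono (fix_mono (hr.trans hq') hv (Finset.Subset.refl _)) _, hv.mono (hr.trans hq')⟩
    intro s _ i hi
    have h1 := hr.2 i (n s) (hg i (n s))
    have h2 : q'.p i (n s) = J s i := hp'1 i s hi
    rwa [h2] at h1
  refine ⟨q', hq'.trans hqc, ?_⟩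
  rcases hcol with hcol | hcol
  · left
    rintro _ ⟨t, ht, rfl⟩ r hr hX
    obtain ⟨h, h1, h2, h3, -⟩ := hread t ht r hr
    exact excl _ _ (mono₁ _ _ _ (hcol t ht h h1) h3) (mono₀ _ _ _ hX h2)
  · right
    rintro _ ⟨t, ht, rfl⟩ r hr hX
    obtain ⟨h, h1, h2, h3, h4⟩ := hread t ht r hr
    rcases hdec t (H h) h4 with h5 | h5
    · exact hcol t ht h h1 h5
    · exact excl _ _ (mono₁ _ _ _ hX h2) (mono₀ _ _ _ h5 h3)

end Cond

end Pool.Agent.Helper89.FV
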