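import Pool.Agent.Helper96.Fc.Defs

/-!
# The tracial ultrapower of the hyperfinite factor in a transitive model (definitions)

`R` is the von Neumann algebra `L(S_∞)` of the group `S_∞` of the finitary permutations of `ℕ`
(Murray and von Neumann: it is the hyperfinite II₁ factor). The elements of its dense
`*`-subalgebra `ℚ(i)[S_∞]` are enumerated by `dec : ℕ → ℂ[Perm ℕ]`. By the density theorem of
Kaplansky every element of `R^U` is the class of a sequence `n ↦ dec (x n)` that is bounded in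
operator norm, where `x : ℕ → ℕ`.
-/

namespace Pool.Agent.Helper89.FV

open Pool.Agent.Helper96.Fc

/-- The complex group algebra of the group of the permutations of `ℕ`. -/
abbrev Alg : Type := MonoidAlgebra ℂ (Equiv.Perm ℕ)

/-- The adjoint: `(∑ c_g g)^* = ∑ conj(c_g) g⁻¹`. -/
noncomputable def adj (a : Alg) : Alg :=
  a.coeff.sum fun g c => MonoidAlgebra.single g⁻¹ (starRingEnd ℂ c)

/-- The trace: the coefficient of the identity. -/
noncomputable def tr (a : Alg) : ℂ := a.coeff 1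

/-- The square of the 2-norm: `‖∑ c_g g‖₂² = ∑ |c_g|²`. -/
noncomputable def nsq (a : Alg) : ℝ := a.coeff.sum fun _ c => ‖c‖ ^ 2

/-- The operator norm of `a` (acting on `ℓ²` by left multiplication) is at most `C`. -/
def OpLe (C : ℕ) (a : Alg) : Prop := ∀ ξ : Alg, nsq (a * ξ) ≤ (C : ℝ) ^ 2 * nsq ξ

/-- The product of the transpositions of a list. -/
def perm (l : List (ℕ × ℕ)) : Equiv.Perm ℕ := (l.map fun s => Equiv.swap s.1 s.2).prod

/-- The element `((a + b i) / (c + 1)) g` of the group algebra, `g` a product of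
transpositions. -/
noncomputable def mono (t : List (ℕ × ℕ) × ℤ × ℤ × ℕ) : Alg :=
  MonoidAlgebra.single (perm t.1) (((t.2.1 : ℂ) + (t.2.2.1 : ℂ) * Complex.I) / ((t.2.2.2 : ℂ) + 1))

/-- An explicit enumeration of the group algebra of the finitary permutations of `ℕ` over the
field `ℚ(i)`. -/
noncomputable def dec (n : ℕ) : Alg :=
  ((Denumerable.ofNat (List (List (ℕ × ℕ) × ℤ × ℤ × ℕ)) n).map mono).sum

/-- The natural number `n` as a set. -/
noncomputable def nat (n : ℕ) : ZFSet.{0} := (n : Ordinal.{0}).toZFSet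

/-- The set `ω`. -/
noncomputable def om : ZFSet.{0} := Ordinal.toZFSet Ordinal.omega0

/-- The graph of a sequence of natural numbers, as a set. -/
noncomputable def graph (x : ℕ → ℕ) : ZFSet.{0} :=
  ZFSet.range fun n : ℕ => ZFSet.pair (nat n) (nat (x n))

/-- In `N`, the set `U` is a free ultrafilter on `ω`. -/
structure FreeUltra (N : Set ZFSet.{0}) (U : ZFSet.{0}) : Prop where
  mem : U ∈ N
  sub : ∀ z ∈ U, z ⊆ om
  inf : ∀ z ∈ U, ∀ m : ℕ, ∃ n, m ≤ n ∧ nat n ∈ z
  inter : ∀ z ∈ U, ∀ w ∈ U, z ∩ w ∈ U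
  up : ∀ z ∈ U, ∀ w ∈ N, z ⊆ w → w ⊆ om → w ∈ U
  ultra : ∀ z ∈ N, z ⊆ om → z ∈ U ∨ om \ z ∈ U

/-- The sequence `t` of real numbers tends to `0` along `U`. -/
def Null (U : ZFSet.{0}) (t : ℕ → ℝ) : Prop :=
  ∀ ε > 0, ∃ z ∈ U, ∀ n, nat n ∈ z → |t n| < ε

/-- The sequences `a` and `b` are equal modulo the 2-norm along `U`. -/
def Eqv (U : ZFSet.{0}) (a b : ℕ → Alg) : Prop := Null U fun n => nsq (a n - b n)

/-- The sequence `n ↦ dec (x n)` is a sequence of the model `N` that represents a unitary element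
of `R^U`. -/
structure Uni (N : Set ZFSet.{0}) (U : ZFSet.{0}) (x : ℕ → ℕ) : Prop where
  mem : graph x ∈ N
  bdd : ∃ C, ∀ n, OpLe C (dec (x n))
  left : Eqv U (fun n => adj (dec (x n)) * dec (x n)) (fun _ => 1)
  right : Eqv U (fun n => dec (x n) * adj (dec (x n))) (fun _ => 1)

/-- `(S, m)` is a group of `N`: the multiplication of the group `G`, whose elements are the
elements of the set `S ∈ N`, has the graph `m ∈ N`. -/
structure GroupIn (N : Set ZFSet.{0}) (S m : ZFSet.{0}) (G : Group {g // g ∈ S}) : Prop where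
  memS : S ∈ N
  memM : m ∈ N
  mul : ∀ z, z ∈ m ↔ ∃ g h : {g // g ∈ S}, z = ZFSet.pair (ZFSet.pair g.1 h.1) (g * h).1

/-- `θ ∈ N` represents a homomorphism of the group `G` into the unitary group of `R^U`: it is a set
of pairs `(g, x)`, where `x` represents the image of `g`. -/
structure HomIn (N : Set ZFSet.{0}) (U S : ZFSet.{0}) (G : Group {g // g ∈ S})
    (θ : ZFSet.{0}) : Prop where
  mem : θ ∈ N
  sub : ∀ z ∈ θ, ∃ (g : {g // g ∈ S}) (x : ℕ → ℕ), z = ZFSet.pair g.1 (graph x) ∧ Uni N U x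
  tot : ∀ g : {g // g ∈ S}, ∃ x, ZFSet.pair g.1 (graph x) ∈ θ
  mul : ∀ (g h : {g // g ∈ S}) (x y z : ℕ → ℕ), ZFSet.pair g.1 (graph x) ∈ θ →
    ZFSet.pair h.1 (graph y) ∈ θ → ZFSet.pair (g * h).1 (graph z) ∈ θ →
      Eqv U (fun n => dec (x n) * dec (y n)) (fun n => dec (z n))

/-- The homomorphism represented by `θ` is injective. -/
def Inj (U S : ZFSet.{0}) (G : Group {g // g ∈ S}) (θ : ZFSet.{0}) : Prop :=
  ∀ (g : {g // g ∈ S}) (x : ℕ → ℕ), ZFSet.pair g.1 (graph x) ∈ θ →
    Eqv U (fun n => dec (x n)) (fun _ => 1) → g = 1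

/-- The images of the elements `g ≠ 1` under the homomorphism represented by `θ` have trace `0`. -/
def TraceZero (U S : ZFSet.{0}) (G : Group {g // g ∈ S}) (θ : ZFSet.{0}) : Prop :=
  ∀ (g : {g // g ∈ S}) (x : ℕ → ℕ), ZFSet.pair g.1 (graph x) ∈ θ → g ≠ 1 →
    Null U fun n => ‖tr (dec (x n))‖

end Pool.Agent.Helper89.FV
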