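import Pool.Agent.Helper89.FV.Cond

/-!
# The fusion lemma
-/

set_option linter.unusedSectionVars false

open Set

namespace Pool.Agent.Helper89.FV

theorem exists_iter {α : Type} {R : α → α → Prop} {Inv : α → Prop} (a₀ : α) (h₀ : Inv a₀)
    (h : ∀ a, Inv a → ∃ b, Inv b ∧ R a b) :
    ∃ f : ℕ → α, f 0 = a₀ ∧ (∀ n, Inv (f n)) ∧ ∀ n, R (f n) (f (n + 1)) := by
  choose g hg1 hg2 using h
  let f : ℕ → {a // Inv a} := fun n => Nat.rec ⟨a₀, h₀⟩ (fun _ a => ⟨g a.1 a.2, hg1 a.1 a.2⟩) n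
  exact ⟨fun n => (f n).1, rfl, fun n => (f n).2, fun n => hg2 _ _⟩

namespace Cond

variable {I : Type}

/-- a countable set is an increasing union of finite sets -/
theorem exists_exh (D : Set I) : ∃ E : Cond I → ℕ → Finset I,
    (∀ c, Monotone (E c)) ∧ (∀ c k, ∀ i ∈ E c k, i ∈ D) ∧
      ∀ c : Cond I, ∀ i ∈ c.supp, i ∈ D → ∃ k, i ∈ E c k := by
  classical
  have key : ∀ c : Cond I, ∃ E : ℕ → Finset I, Monotone E ∧ (∀ k, ∀ i ∈ E k, i ∈ D) ∧
      ∀ i ∈ c.supp, i ∈ D → ∃ k, i ∈ E k := by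
    intro c
    have hc : (c.supp ∩ D).Countable := c.supp_countable.mono inter_subset_left
    rcases (c.supp ∩ D).eq_empty_or_nonempty with h | h
    · refine ⟨fun _ => ∅, fun _ _ _ => le_rfl, fun k i hi => absurd hi (Finset.notMem_empty i),
        fun i hi hD => ?_⟩
      have : i ∈ c.supp ∩ D := ⟨hi, hD⟩
      rw [h] at this
      exact this.elim
    · obtain ⟨f, hf⟩ := hc.exists_eq_range h
      refine ⟨fun k => (Finset.range k).image f, ?_, ?_, ?_⟩
      · intro a b hab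
        exact Finset.image_subset_image (Finset.range_mono hab)
      · intro k i hi
        obtain ⟨j, -, rfl⟩ := Finset.mem_image.1 hi
        have : f j ∈ c.supp ∩ D := hf ▸ mem_range_self j
        exact this.2
      · intro i hi hD
        have : i ∈ range f := hf ▸ ⟨hi, hD⟩
        obtain ⟨j, rfl⟩ := this
        exact ⟨j + 1, Finset.mem_image.2 ⟨j, by simp, rfl⟩⟩
  choose E h1 h2 h3 using key
  exact ⟨E, h1, h2, h3⟩

/-- a level of `b` at which finitely many coordinates are large -/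
theorem exists_level (c : Cond I) (F : Finset I) (m k : ℕ) :
    ∃ n ∈ c.b, m ≤ n ∧ ∀ i ∈ F, k ≤ (c.p i n).card := by
  classical
  have key : ∃ N, ∀ n ∈ c.b, N ≤ n → ∀ i ∈ F, k ≤ (c.p i n).card := by
    induction F using Finset.induction with
    | empty => exact ⟨0, fun n _ _ i hi => absurd hi (Finset.notMem_empty i)⟩
    | insert j F _ ih =>
      obtain ⟨N, hN⟩ := ih
      obtain ⟨N', hN'⟩ := c.lim j k
      refine ⟨max N N', fun n hn h i hi => ?_⟩
      rcases Finset.mem_insert.1 hi with rfl | hi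
      · exact hN' n hn ((le_max_right _ _).trans h)
      · exact hN n hn ((le_max_left _ _).trans h) i hi
  obtain ⟨N, hN⟩ := key
  obtain ⟨n, hn, h⟩ := c.inf.exists_gt (max N m)
  exact ⟨n, hn, (le_max_right _ _).trans h.le, hN n hn ((le_max_left _ _).trans h.le)⟩

/-- the states of the fusion -/
structure FS (I : Type) where
  c : Cond I
  t : ℕ
  n : ℕ
  m : ℕ
  F : Finset I
  P : Finset (I × ℕ)
  G : ℕ → Finset I

/-- **The limit of a fusion sequence.** -/
theorem limit {D : Set I} (c : ℕ → Cond I) (n : ℕ → ℕ) (F : ℕ → Finset I)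
    (P : ℕ → Finset (I × ℕ)) (h1 : ∀ t, c (t + 1) ≤ c t) (h2 : ∀ t, Off D (c (t + 1)) (c t))
    (h3 : ∀ t, n t ∈ (c t).b) (h4 : StrictMono n) (h5 : Monotone F)
    (h7 : ∀ t, ∀ i ∈ F t, t ≤ ((c (t + 1)).p i (n t)).card)
    (h8 : ∀ t, ∀ i ∈ (c t).supp, i ∈ D → ∃ s, i ∈ F s)
    (h9 : ∀ t, P t ⊆ P (t + 1)) (h9' : ∀ t, ∀ i ∈ F t, (i, n t) ∈ P (t + 1))
    (h10 : ∀ t i k, (i, k) ∈ P t → (c (t + 1)).p i k = (c t).p i k) :
    ∃ q : Cond I, q ≤ c 0 ∧ Off D q (c 0) ∧ q.b = range n ∧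
      (∀ i ∈ q.supp, i ∈ D → ∃ s, i ∈ F s) ∧
      (∀ t, ∀ i ∈ F t, t ≤ (q.p i (n t)).card) ∧
      (∀ t i k, (i, k) ∈ P t → q.p i k = (c t).p i k) ∧
      (∀ t i k, q.p i k ⊆ (c t).p i k) ∧
      (∀ t, q.cut (n t + 1) ≤ c (t + 1)) := by
  classical
  have hanti : Antitone c := antitone_nat_of_succ_le h1
  have hmono : Monotone P := monotone_nat_of_le_succ h9
  have hPc : ∀ t s i k, (i, k) ∈ P t → t ≤ s → (c s).p i k = (c t).p i k := by
    intro t s i k hik hts
    induction s, hts using Nat.le_induction with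
    | base => rfl
    | succ s hs ih =>
      rw [h10 s i k (hmono hs hik), ih]
  have hoff : ∀ t, Off D (c t) (c 0) := by
    intro t
    induction t with
    | zero => exact Off.refl _ _
    | succ t ih => exact (h2 t).trans ih
  let p : I → ℕ → Finset ℕ := fun i k => (Finset.range (k + 1)).filter fun j => ∀ t, j ∈ (c t).p i k
  have hp : ∀ i k j, j ∈ p i k ↔ ∀ t, j ∈ (c t).p i k := by
    intro i k j
    simp only [p, Finset.mem_filter]
    exact ⟨fun h => h.2, fun h => ⟨(c 0).sub i k (h 0), h⟩⟩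
  have hpsub : ∀ t i k, p i k ⊆ (c t).p i k := fun t i k j hj => (hp i k j).1 hj t
  have hPp : ∀ t i k, (i, k) ∈ P t → p i k = (c t).p i k := by
    intro t i k hik
    refine (hpsub t i k).antisymm fun j hj => (hp i k j).2 fun s => ?_
    rcases le_total t s with hts | hst
    · rw [hPc t s i k hik hts]; exact hj
    · exact (hanti hst).2 i k hj
  have hFt : ∀ t, ∀ i ∈ F t, t ≤ (p i (n t)).card := by
    intro t i hi
    rw [hPp (t + 1) i (n t) (h9' t i hi)]
    exact h7 t i hi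
  have hsupp : ∀ i, (∃ k, p i k ≠ Finset.range (k + 1)) → ∃ t, i ∈ (c t).supp := by
    rintro i ⟨k, hk⟩
    by_contra hcon
    push Not at hcon
    apply hk
    refine Finset.Subset.antisymm (fun j hj => (Finset.mem_filter.1 hj).1) fun j hj => ?_
    exact (hp i k j).2 fun t => by rw [p_of_not_supp (hcon t)]; exact hj
  have hcb : ∀ s t, s ≤ t → n t ∈ (c s).b := fun s t hst => (hanti hst).1 (h3 t)
  let q : Cond I :=
    { b := range n
      p := p
      inf := infinite_range_of_injective h4.injective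
      ne := by
        intro i k
        by_contra hcon
        rw [Finset.not_nonempty_iff_eq_empty] at hcon
        have h11 : ∀ j ∈ Finset.range (k + 1), ∃ t, j ∉ (c t).p i k := by
          intro j _
          by_contra h12
          push Not at h12
          have := (hp i k j).2 h12
          rw [hcon] at this
          exact Finset.notMem_empty j this
        choose! T hT using h11
        obtain ⟨j, hj⟩ := (c ((Finset.range (k + 1)).sup T)).ne i k
        have hj' := (c _).sub i k hj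
        exact hT j hj' ((hanti (Finset.le_sup (f := T) hj')).2 i k hj)
      sub := fun i k j hj => (Finset.mem_filter.1 hj).1
      cnt := by
        refine (countable_iUnion fun t => (c t).supp_countable).mono ?_
        intro i hi
        obtain ⟨t, ht⟩ := hsupp i hi
        exact mem_iUnion.2 ⟨t, ht⟩
      lim := by
        intro i m
        by_cases hF : ∃ s, i ∈ F s
        · obtain ⟨s, hs⟩ := hF
          refine ⟨n (max s m), ?_⟩
          rintro _ ⟨t, rfl⟩ ht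
          have h11 : max s m ≤ t := h4.le_iff_le.1 ht
          exact ((le_max_right s m).trans h11).trans (hFt t i (h5 ((le_max_left s m).trans h11) hs))
        · by_cases hD : i ∈ D
          · refine ⟨m, fun k _ hk => ?_⟩
            have h11 : p i k = Finset.range (k + 1) := by
              by_contra h12
              obtain ⟨t, ht⟩ := hsupp i ⟨k, h12⟩
              exact hF (h8 t i ht hD)
            rw [h11, Finset.card_range]
            omega
          · obtain ⟨N, hN⟩ := (c 0).lim i m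
            refine ⟨N, ?_⟩
            rintro _ ⟨t, rfl⟩ ht
            have h11 : p i (n t) = (c 0).p i (n t) := by
              refine (hpsub 0 i _).antisymm fun j hj => (hp i _ j).2 fun s => ?_
              rw [hoff s i hD]
              exact hj
            rw [h11]
            exact hN _ (hcb 0 t (Nat.zero_le t)) ht }
  refine ⟨q, ⟨?_, hpsub 0⟩, ?_, rfl, ?_, hFt, hPp, hpsub, ?_⟩
  · rintro _ ⟨t, rfl⟩
    exact hcb 0 t (Nat.zero_le t)
  · intro i hi k
    refine (hpsub 0 i k).antisymm fun j hj => (hp i k j).2 fun s => ?_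
    rw [hoff s i hi]
    exact hj
  · intro i hi hD
    obtain ⟨t, ht⟩ := hsupp i hi
    exact h8 t i ht hD
  · intro t
    refine ⟨?_, hpsub (t + 1)⟩
    rintro _ ⟨⟨s, rfl⟩, hs⟩
    exact hcb (t + 1) s (h4.lt_iff_lt.1 hs)

/-- **The fusion lemma.** -/
theorem fusion {D : Set I} (c₀ : Cond I) (𝒟 : ℕ → Set (Cond I))
    (hopen : ∀ n, ∀ c ∈ 𝒟 n, ∀ d ≤ c, d ∈ 𝒟 n)
    (hd : ∀ n, ∀ d ≤ c₀, ∃ e ≤ d, Off D e d ∧ e ∈ 𝒟 n) (F₀ : Finset I) (hF₀ : ∀ i ∈ F₀, i ∈ D) :
    ∃ (q : Cond I) (n : ℕ → ℕ) (F : ℕ → Finset I) (W : ℕ → Finset (I × ℕ)),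
      q ≤ c₀ ∧ Off D q c₀ ∧ q.b = range n ∧ StrictMono n ∧ Monotone F ∧ (∀ t, F₀ ⊆ F t) ∧
      (∀ t, ∀ i ∈ F t, i ∈ D) ∧ (∀ i ∈ q.supp, i ∈ D → ∃ s, i ∈ F s) ∧
      (∀ t, ∀ i ∈ F t, t ≤ (q.p i (n t)).card) ∧
      (∀ t x, x ∈ W t ↔ ∃ s ≤ t, x.2 = n s ∧ x.1 ∈ F s) ∧
      ∀ t h, Val q (W t) h → (q.fix (W t) h).cut (n t + 1) ∈ 𝒟 (n t) := by
  classical
  obtain ⟨E, hE1, hE2, hE3⟩ := exists_exh D
  let Inv : FS I → Prop := fun S => S.c ≤ c₀ ∧ (∀ i ∈ S.F, i ∈ D) ∧ F₀ ⊆ S.F ∧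
    (∀ k, ∀ i ∈ S.G k, i ∈ D)
  let R : FS I → FS I → Prop := fun S S' =>
    S'.c ≤ S.c ∧ Off D S'.c S.c ∧ S'.n ∈ S.c.b ∧ S.m ≤ S'.n ∧ S'.m = S'.n + 1 ∧ S'.t = S.t + 1 ∧
    (∀ k, S'.G k = S.G k ∪ E S.c k) ∧ S'.F = S.F ∪ S'.G S.t ∧
    (∀ i ∈ S'.F, S.t ≤ (S.c.p i S'.n).card) ∧
    S'.P = S.P ∪ S'.F.image (fun i => (i, S'.n)) ∧
    (∀ i k, (i, k) ∈ S'.P → S'.c.p i k = S.c.p i k) ∧
    ∀ h, Val S.c S'.P h → S'.c.fix S'.P h ∈ 𝒟 S'.n
  obtain ⟨f, hf0, hfI, hfR⟩ := exists_iter (R := R) (Inv := Inv)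
    ⟨c₀, 0, 0, 0, F₀, ∅, fun _ => ∅⟩ ⟨le_rfl, hF₀, Finset.Subset.refl _,
      fun k i hi => absurd hi (Finset.notMem_empty i)⟩ (by
    rintro S ⟨hS1, hS2, hS3, hS4⟩
    let G' : ℕ → Finset I := fun k => S.G k ∪ E S.c k
    let F' : Finset I := S.F ∪ G' S.t
    obtain ⟨n, hn, hmn, hcard⟩ := exists_level S.c F' S.m S.t
    let P' : Finset (I × ℕ) := S.P ∪ F'.image (fun i => (i, n))
    obtain ⟨r, hr1, hr2, hr3, hr4⟩ := lemA (hopen n) (c := S.c)
      (fun d hd' => hd n d (hd'.trans hS1)) P'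
    have hG' : ∀ k, ∀ i ∈ G' k, i ∈ D := by
      intro k i hi
      rcases Finset.mem_union.1 hi with hi | hi
      · exact hS4 k i hi
      · exact hE2 _ _ i hi
    refine ⟨⟨r, S.t + 1, n, n + 1, F', P', G'⟩, ⟨hr1.trans hS1, ?_, ?_, hG'⟩,
      hr1, hr2, hn, hmn, rfl, rfl, fun _ => rfl, rfl, hcard, rfl, hr3, hr4⟩
    · intro i hi
      rcases Finset.mem_union.1 hi with hi | hi
      · exact hS2 i hi
      · exact hG' _ i hi
    · exact hS3.trans Finset.subset_union_left)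
  -- the sequences
  have ht : ∀ t, (f t).t = t := by
    intro t
    induction t with
    | zero => rw [hf0]
    | succ t ih => rw [(hfR t).2.2.2.2.2.1, ih]
  let n : ℕ → ℕ := fun t => (f (t + 1)).n
  let F : ℕ → Finset I := fun t => (f (t + 1)).F
  have hFs : ∀ t, F t = (f t).F ∪ (f (t + 1)).G t := by
    intro t
    have := (hfR t).2.2.2.2.2.2.2.1
    rw [ht] at this
    exact this
  have hn : StrictMono n := by
    refine strictMono_nat_of_lt_succ fun t => ?_
    have h1 := (hfR (t + 1)).2.2.2.1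
    have h2 := (hfR t).2.2.2.2.1
    rw [h2] at h1
    exact h1
  have hF : Monotone F := by
    refine monotone_nat_of_le_succ fun t => ?_
    rw [hFs (t + 1)]
    exact Finset.subset_union_left
  have hG : ∀ k s t, s ≤ t → (f s).G k ⊆ (f t).G k := by
    intro k s t hst
    induction t, hst using Nat.le_induction with
    | base => exact Finset.Subset.refl _
    | succ t _ ih =>
      rw [(hfR t).2.2.2.2.2.2.1]
      exact ih.trans Finset.subset_union_left
  have hGk : ∀ t, Monotone ((f t).G) := by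
    intro t
    induction t with
    | zero =>
      rw [hf0]
      exact fun _ _ _ => le_rfl
    | succ t ih =>
      intro a b hab
      rw [(hfR t).2.2.2.2.2.2.1, (hfR t).2.2.2.2.2.2.1]
      exact Finset.union_subset_union (ih hab) (hE1 _ hab)
  have hP : ∀ t x, x ∈ (f t).P ↔ ∃ s < t, x.2 = n s ∧ x.1 ∈ F s := by
    intro t
    induction t with
    | zero =>
      intro x
      rw [hf0]
      constructor
      · intro h
        exact absurd h (Finset.notMem_empty x)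
      · rintro ⟨s, hs, -⟩
        omega
    | succ t ih =>
      intro x
      rw [(hfR t).2.2.2.2.2.2.2.2.2.1, Finset.mem_union, ih x, Finset.mem_image]
      constructor
      · rintro (⟨s, hs, h⟩ | ⟨i, hi, rfl⟩)
        · exact ⟨s, hs.trans (Nat.lt_succ_self t), h⟩
        · exact ⟨t, Nat.lt_succ_self t, rfl, hi⟩
      · rintro ⟨s, hs, h1, h2⟩
        rcases (Nat.lt_succ_iff.1 hs).lt_or_eq with h3 | rfl
        · exact Or.inl ⟨s, h3, h1, h2⟩
        · exact Or.inr ⟨x.1, h2, Prod.ext rfl h1.symm⟩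
  obtain ⟨q, hq1, hq2, hq3, hq4, hq5, hq6, hq7, hq8⟩ := limit (D := D) (fun t => (f t).c) n F
    (fun t => (f t).P) (fun t => (hfR t).1) (fun t => (hfR t).2.1) (fun t => (hfR t).2.2.1) hn hF
    (by
      intro t i hi
      have h11 : (i, n t) ∈ (f (t + 1)).P := (hP (t + 1) _).2 ⟨t, Nat.lt_succ_self t, rfl, hi⟩
      have := (hfR t).2.2.2.2.2.2.2.2.1 i hi
      rw [ht] at this
      rw [(hfR t).2.2.2.2.2.2.2.2.2.2.1 i _ h11]
      exact this)
    (by
      intro t i hi hD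
      obtain ⟨k, hk⟩ := hE3 _ i hi hD
      refine ⟨max t k, ?_⟩
      rw [hFs]
      refine Finset.mem_union_right _ ?_
      refine hG _ (t + 1) _ (Nat.succ_le_succ (le_max_left t k)) ?_
      refine hGk (t + 1) (le_max_right t k) ?_
      rw [(hfR t).2.2.2.2.2.2.1]
      exact Finset.mem_union_right _ hk)
    (fun t x hx => by
      obtain ⟨s, hs, h⟩ := (hP t x).1 hx
      exact (hP (t + 1) x).2 ⟨s, hs.trans (Nat.lt_succ_self t), h⟩)
    (fun t i hi => (hP (t + 1) _).2 ⟨t, Nat.lt_succ_self t, rfl, hi⟩)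
    (fun t i k hik => (hfR t).2.2.2.2.2.2.2.2.2.2.1 i k (by
      obtain ⟨s, hs, h⟩ := (hP t _).1 hik
      exact (hP (t + 1) _).2 ⟨s, hs.trans (Nat.lt_succ_self t), h⟩))
  have hf0c : (f 0).c = c₀ := by rw [hf0]
  refine ⟨q, n, F, fun t => (f (t + 1)).P, ?_, ?_, hq3, hn, hF, ?_, ?_, hq4, hq5, ?_, ?_⟩
  · rw [← hf0c]; exact hq1
  · rw [← hf0c]; exact hq2
  · intro t
    exact (hfI (t + 1)).2.2.1
  · intro t
    exact (hfI (t + 1)).2.1
  · intro t x
    rw [hP (t + 1) x]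
    simp only [Nat.lt_succ_iff]
  · intro t h hv
    have hv' : Val (f t).c (f (t + 1)).P h := fun i k hik => hq7 t i k (hv i k hik)
    have h11 := (hfR t).2.2.2.2.2.2.2.2.2.2.2 h hv'
    refine hopen _ _ h11 _ ?_
    refine ⟨(hq8 t).1, fun i k => ?_⟩
    change (q.fix _ h).p i k ⊆ _
    by_cases h12 : (i, k) ∈ (f (t + 1)).P
    · rw [fix_mem _ h12 (hv i k h12), fix_mem _ h12 (hq7 (t + 1) i k (hv i k h12))]
    · rw [fix_not_mem _ h12, fix_not_mem _ h12]
      exact hq7 (t + 1) i k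

/-- The fusion lemma, in the form in which it is mostly used. -/
theorem fusion' {D : Set I} (c₀ : Cond I) (𝒟 : ℕ → Set (Cond I))
    (hopen : ∀ n, ∀ c ∈ 𝒟 n, ∀ d ≤ c, d ∈ 𝒟 n)
    (hd : ∀ n, ∀ d ≤ c₀, ∃ e ≤ d, Off D e d ∧ e ∈ 𝒟 n) :
    ∃ q ≤ c₀, Off D q c₀ ∧ ∃ V : ℕ → Finset (I × ℕ),
      ∀ n ∈ q.b, ∀ h, Val q (V n) h → (q.fix (V n) h).cut (n + 1) ∈ 𝒟 n := by
  obtain ⟨q, n, F, W, h1, h2, h3, h4, -, -, -, -, -, -, h5⟩ :=
    fusion c₀ 𝒟 hopen hd ∅ (fun i hi => absurd hi (Finset.notMem_empty i))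
  refine ⟨q, h1, h2, fun k => W (Function.invFun n k), ?_⟩
  intro k hk h hv
  rw [h3] at hk
  obtain ⟨t, rfl⟩ := hk
  have e : Function.invFun n (n t) = t := Function.leftInverse_invFun h4.injective t
  simp only [e] at hv ⊢
  exact h5 t h hv

end Cond

end Pool.Agent.Helper89.FV
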